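import Pool.Agent.H770.GS.UQ

/-! # UQ10: decay -/

set_option autoImplicit false

open MeasureTheory Set intervalIntegral Filter Topology

namespace Pool.Agent.H42.UQ10

open Pool.Agent.H770.GS

theorem uq10 : S_decay := by
  intro ζ g k hζ hg hk δ v₂ hδ hδv
  have hd : ∀ v : ℝ, HasDerivAt (fun v => g v * Real.exp (v ^ 2 / (2 * ζ)))
      (-k v * Real.exp (v ^ 2 / (2 * ζ)) + g v * (Real.exp (v ^ 2 / (2 * ζ)) *
        (2 * v / (2 * ζ)))) v := by
    intro v
    have h1 : HasDerivAt (fun v : ℝ => v ^ 2 / (2 * ζ)) (2 * v / (2 * ζ)) v := by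
      have := (hasDerivAt_pow 2 v).div_const (2 * ζ)
      simpa using this
    exact (hg v).mul h1.exp
  have hanti : AntitoneOn (fun v => g v * Real.exp (v ^ 2 / (2 * ζ))) (Ici 0) := by
    apply antitoneOn_of_deriv_nonpos (convex_Ici 0)
    · exact fun v _ => (hd v).continuousAt.continuousWithinAt
    · exact fun v _ => (hd v).differentiableAt.differentiableWithinAt
    · intro v hv
      rw [interior_Ici, mem_Ioi] at hv
      rw [(hd v).deriv]
      have h2 := hk v hv.le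
      have h3 : g v * v / ζ ≤ k v := by
        rw [div_le_iff₀ hζ]
        linarith
      have h4 : -k v * Real.exp (v ^ 2 / (2 * ζ)) + g v * (Real.exp (v ^ 2 / (2 * ζ)) *
          (2 * v / (2 * ζ))) = (g v * v / ζ - k v) * Real.exp (v ^ 2 / (2 * ζ)) := by
        field_simp
        ring
      rw [h4]
      exact mul_nonpos_of_nonpos_of_nonneg (by linarith) (Real.exp_pos _).le
  have h5 := hanti (mem_Ici.2 hδ) (mem_Ici.2 (hδ.trans hδv)) hδv
  have h6 : g v₂ * Real.exp (v₂ ^ 2 / (2 * ζ)) ≤ g δ * Real.exp (δ ^ 2 / (2 * ζ)) := h5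
  have h7 : Real.exp (-(v₂ ^ 2 - δ ^ 2) / (2 * ζ)) =
      Real.exp (δ ^ 2 / (2 * ζ)) / Real.exp (v₂ ^ 2 / (2 * ζ)) := by
    rw [← Real.exp_sub]
    congr 1
    ring
  rw [h7, ← mul_div_assoc, le_div_iff₀ (Real.exp_pos _)]
  exact h6

end Pool.Agent.H42.UQ10
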